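import Pool.Agent.H109R3.CF.Src

/-!
# A noncontracting grammar whose language has an undecidable erasure

`P T p0` is a noncontracting rewriting system over the symbols `Y`; the words over `a, b, d`
derivable from `S` become, after erasing `d`, exactly the words `b a^x` such that the residue
machine `T` stops from state `p0` and number `x`.
-/

set_option autoImplicit false

namespace Q222.SC

open Relation Pool.Agent.H109R3.CF

/-- one rewriting step -/
def Step {α : Type} (P : List (List α × List α)) (x y : List α) : Prop :=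
  ∃ u v l r, (l, r) ∈ P ∧ x = u ++ l ++ v ∧ y = u ++ r ++ v

/-- symbols -/
inductive Y : Type
  | S
  | L
  | R
  | A
  | F
  | Q (o : Option ℕ)
  | K (τ : Tr)
  | B (p : ℕ)
  | a
  | b
  | d
  deriving DecidableEq

/-- heads -/
def hd : Y → Bool
  | .S => true
  | .F => true
  | .Q _ => true
  | .K _ => true
  | .B _ => true
  | _ => false

def rep (n : ℕ) (y : Y) : List Y := List.replicate n y

/-- rules of one transition -/
def trRules (τ : Tr) : List (List Y × List Y) :=
  [ (Y.Q τ.2.2.2.2.2 :: rep τ.2.2.2.2.1 .A,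
      rep τ.2.2.1 .A ++ [Y.K τ] ++ rep (τ.2.2.2.2.1 - τ.2.2.1) .d),
    (Y.K τ :: rep τ.2.2.2.1 .A, rep τ.2.1 .A ++ [Y.K τ] ++ rep (τ.2.2.2.1 - τ.2.1) .d),
    ([Y.K τ, .R], [.B τ.1, .R]),
    ([Y.A, .B τ.1], [.B τ.1, .A]),
    ([Y.L, .B τ.1], [.L, .Q (some τ.1)]),
    ([Y.K τ, .d], [.d, .K τ]) ]

/-- all rules -/
def P (T : List Tr) (p0 : ℕ) : List (List Y × List Y) :=
  [ ([Y.S], [.L, .Q none, .R]),
    ([Y.Q none], [.Q none, .A]),
    ([Y.L, .Q (some p0)], [.b, .F]),
    ([Y.F, .A], [.a, .F]),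
    ([Y.F, .R], [.d, .d]),
    ([Y.L, .d], [.d, .L]),
    ([Y.A, .d], [.d, .A]) ] ++ T.flatMap trRules

theorem P_len {T : List Tr} {p0 : ℕ} {ρ : List Y × List Y} (h : ρ ∈ P T p0) :
    ρ.1.length ≤ ρ.2.length := by
  simp only [P, List.mem_append, List.mem_cons, List.not_mem_nil, or_false, List.mem_flatMap] at h
  rcases h with (h | h | h | h | h | h | h) | ⟨τ, hτ, h⟩
  all_goals try (subst h; simp; done)
  simp only [trRules, List.mem_cons, List.not_mem_nil, or_false] at h
  rcases h with h | h | h | h | h | h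
  all_goals subst h
  all_goals simp [rep]
  all_goals omega

/-- nonterminals -/
def nt : Y → Bool
  | .a => false
  | .b => false
  | .d => false
  | _ => true

theorem P_nt {T : List Tr} {p0 : ℕ} {ρ : List Y × List Y} (h : ρ ∈ P T p0) :
    ∃ y ∈ ρ.1, nt y = true := by
  simp only [P, List.mem_append, List.mem_cons, List.not_mem_nil, or_false, List.mem_flatMap] at h
  rcases h with (h | h | h | h | h | h | h) | ⟨τ, hτ, h⟩
  all_goals try (subst h; simp [nt]; done)
  simp only [trRules, List.mem_cons, List.not_mem_nil, or_false] at h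
  rcases h with h | h | h | h | h | h
  all_goals subst h
  all_goals simp [nt]

/-! ### Soundness -/

/-- erasing `d` -/
def er (x : List Y) : List Y := x.filter (fun y => decide (y ≠ .d))

theorem er_append (x y : List Y) : er (x ++ y) = er x ++ er y := by
  simp [er, List.filter_append]

theorem er_rep_A (n : ℕ) : er (rep n .A) = rep n .A := by
  simp [er, rep, List.filter_replicate]

theorem er_rep_d (n : ℕ) : er (rep n .d) = [] := by
  simp [er, rep, List.filter_replicate]

/-- correct forms -/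
def Good (T : List Tr) (p0 : ℕ) (U : List Y) (h : Y) (V : List Y) : Prop :=
  match h with
  | .S => U = [] ∧ V = []
  | .Q o => ∃ y, HaltsT T o y ∧ U = [.L] ∧ V = rep y .A ++ [.R]
  | .K τ => ∃ i j t, τ ∈ T ∧ i = τ.2.1 * t + τ.2.2.1 ∧
      HaltsT T τ.2.2.2.2.2 (τ.2.2.2.1 * t + τ.2.2.2.2.1 + j) ∧ U = .L :: rep i .A ∧
      V = rep j .A ++ [.R]
  | .B p => ∃ i j, HaltsT T (some p) (i + j) ∧ U = .L :: rep i .A ∧ V = rep j .A ++ [.R]
  | .F => ∃ i j, HaltsT T (some p0) (i + j) ∧ U = .b :: rep i .a ∧ V = rep j .A ++ [.R]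
  | _ => False

def GG (T : List Tr) (p0 : ℕ) (x : List Y) : Prop :=
  (∃ U h V, hd h = true ∧ (∀ y ∈ U, hd y = false) ∧ (∀ y ∈ V, hd y = false) ∧ x = U ++ h :: V ∧
    Good T p0 U h V) ∨ ∃ i, HaltsT T (some p0) i ∧ x = .b :: rep i .a

theorem uniq {U V u v : List Y} {h h' : Y} (e : U ++ h :: V = u ++ h' :: v)
    (h1 : hd h = true) (h2 : hd h' = true) (hU : ∀ y ∈ U, hd y = false)
    (hV : ∀ y ∈ V, hd y = false) : U = u ∧ h = h' ∧ V = v := by
  rcases List.append_eq_append_iff.1 e with ⟨w, e1, e2⟩ | ⟨w, e1, e2⟩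
  · cases w with
    | nil => simp at e1 e2; exact ⟨e1.symm, e2.1, e2.2⟩
    | cons c w =>
      simp only [List.cons_append, List.cons.injEq] at e2
      have : h' ∈ V := by rw [e2.2]; simp
      rw [hV h' this] at h2
      simp at h2
  · cases w with
    | nil => simp at e1 e2; exact ⟨e1, e2.1.symm, e2.2.symm⟩
    | cons c w =>
      have : h' ∈ U := by
        rw [e1]
        simp only [List.cons_append, List.cons.injEq] at e2
        rw [e2.1]; simp
      rw [hU h' this] at h2
      simp at h2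

theorem GG_split {T : List Tr} {p0 : ℕ} {u v : List Y} {h : Y} (g : GG T p0 (u ++ h :: v))
    (h2 : hd h = true) : Good T p0 u h v ∧ (∀ y ∈ u, hd y = false) ∧ ∀ y ∈ v, hd y = false := by
  rcases g with ⟨U, h', V, h3, hU, hV, e, g⟩ | ⟨i, hi, e⟩
  · obtain ⟨rfl, rfl, rfl⟩ := uniq e.symm h3 h2 hU hV
    exact ⟨g, hU, hV⟩
  · have : h ∈ Y.b :: rep i .a := by rw [← e]; simp
    simp [rep] at this
    rcases this with rfl | ⟨-, rfl⟩ <;> simp [hd] at h2

theorem hd_rep_A (n : ℕ) : ∀ y ∈ rep n .A, hd y = false := by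
  intro y hy
  simp [rep] at hy
  rw [hy.2]; rfl

theorem rep_split {n m : ℕ} {v : List Y} (h : rep n .A ++ v = rep m .A ++ [Y.R]) :
    ∃ j, m = n + j ∧ v = rep j .A ++ [Y.R] := by
  induction n generalizing m with
  | zero => exact ⟨m, by simp, by simpa [rep] using h⟩
  | succ n ih =>
    cases m with
    | zero => simp [rep, List.replicate_succ] at h
    | succ m =>
      simp only [rep, List.replicate_succ, List.cons_append, List.cons.injEq, true_and] at h
      obtain ⟨j, h1, h2⟩ := ih (m := m) h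
      exact ⟨j, by omega, h2⟩

theorem rep_succ' (n : ℕ) (y : Y) : rep (n + 1) y = rep n y ++ [y] := by
  simp [rep, List.replicate_succ']

theorem rep_add (n m : ℕ) (y : Y) : rep (n + m) y = rep n y ++ rep m y := by
  unfold rep
  exact List.replicate_add n m y

theorem GG_head {T : List Tr} {p0 : ℕ} {u v : List Y} {h : Y} (h1 : hd h = true)
    (g : Good T p0 u h v) : GG T p0 (u ++ h :: v) := by
  refine Or.inl ⟨u, h, v, h1, ?_, ?_, rfl, g⟩
  · cases h <;> simp only [Good] at g
    · rw [g.1]; simp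
    · obtain ⟨i, j, hi, rfl, rfl⟩ := g
      intro y hy
      simp [rep] at hy
      rcases hy with rfl | ⟨-, rfl⟩ <;> rfl
    · obtain ⟨y, hi, rfl, rfl⟩ := g
      intro y hy
      simp at hy
      rw [hy]; rfl
    · obtain ⟨i, j, t, -, -, hi, rfl, rfl⟩ := g
      intro y hy
      simp [rep] at hy
      rcases hy with rfl | ⟨-, rfl⟩ <;> rfl
    · obtain ⟨i, j, hi, rfl, rfl⟩ := g
      intro y hy
      simp [rep] at hy
      rcases hy with rfl | ⟨-, rfl⟩ <;> rfl
  · cases h <;> simp only [Good] at g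
    · rw [g.2]; simp
    · obtain ⟨i, j, hi, rfl, rfl⟩ := g
      intro y hy
      simp [rep] at hy
      rcases hy with ⟨-, rfl⟩ | rfl <;> rfl
    · obtain ⟨y, hi, rfl, rfl⟩ := g
      intro y hy
      simp [rep] at hy
      rcases hy with ⟨-, rfl⟩ | rfl <;> rfl
    · obtain ⟨i, j, t, -, -, hi, rfl, rfl⟩ := g
      intro y hy
      simp [rep] at hy
      rcases hy with ⟨-, rfl⟩ | rfl <;> rfl
    · obtain ⟨i, j, hi, rfl, rfl⟩ := g
      intro y hy
      simp [rep] at hy
      rcases hy with ⟨-, rfl⟩ | rfl <;> rfl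

theorem sound_step {T : List Tr} {p0 : ℕ} {x y : List Y} (g : GG T p0 (er x))
    (h : Step (P T p0) x y) : GG T p0 (er y) := by
  obtain ⟨u, v, l, r, hP, rfl, rfl⟩ := h
  rw [er_append, er_append] at g ⊢
  generalize er u = U at g ⊢
  generalize er v = V at g ⊢
  simp only [P, List.mem_append, List.mem_cons, List.not_mem_nil, or_false, List.mem_flatMap] at hP
  rcases hP with (h | h | h | h | h | h | h) | ⟨τ, hτ, h⟩
  · -- S
    obtain ⟨rfl, rfl⟩ := Prod.mk.inj h
    have e1 : U ++ er [Y.S] ++ V = U ++ Y.S :: V := by simp [er]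
    rw [e1] at g
    obtain ⟨⟨rfl, rfl⟩, -⟩ := GG_split g rfl
    have e2 : ([] : List Y) ++ er [Y.L, .Q none, .R] ++ [] = [.L] ++ .Q none :: [.R] := by simp [er]
    rw [e2]
    exact GG_head rfl ⟨0, .stop 0, rfl, rfl⟩
  · -- Q none
    obtain ⟨rfl, rfl⟩ := Prod.mk.inj h
    have e1 : U ++ er [Y.Q none] ++ V = U ++ Y.Q none :: V := by simp [er]
    rw [e1] at g
    obtain ⟨⟨y, hy, rfl, rfl⟩, -⟩ := GG_split g rfl
    have e2 : [Y.L] ++ er [Y.Q none, .A] ++ (rep y .A ++ [.R]) =
        [.L] ++ .Q none :: (rep (y + 1) .A ++ [.R]) := by simp [er, rep, List.replicate_succ]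
    rw [e2]
    exact GG_head rfl ⟨y + 1, .stop _, rfl, rfl⟩
  · -- L Q p0
    obtain ⟨rfl, rfl⟩ := Prod.mk.inj h
    have e1 : U ++ er [Y.L, Y.Q (some p0)] ++ V = (U ++ [Y.L]) ++ Y.Q (some p0) :: V := by
      simp [er]
    rw [e1] at g
    obtain ⟨⟨y, hy, h1, rfl⟩, -⟩ := GG_split g rfl
    obtain rfl : U = [] := by
      cases U with
      | nil => rfl
      | cons c U => simp at h1
    have e2 : ([] : List Y) ++ er [Y.b, .F] ++ (rep y .A ++ [.R]) =
        [.b] ++ .F :: (rep y .A ++ [.R]) := by simp [er]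
    rw [e2]
    exact GG_head rfl ⟨0, y, by simpa using hy, rfl, rfl⟩
  · -- F A
    obtain ⟨rfl, rfl⟩ := Prod.mk.inj h
    have e1 : U ++ er [Y.F, Y.A] ++ V = U ++ Y.F :: (Y.A :: V) := by simp [er]
    rw [e1] at g
    obtain ⟨⟨i, j, hy, rfl, h1⟩, -⟩ := GG_split g rfl
    obtain ⟨j', rfl, rfl⟩ := rep_split (n := 1) (v := V) (m := j) (by simpa [rep] using h1)
    have e2 : (Y.b :: rep i .a) ++ er [Y.a, .F] ++ (rep j' .A ++ [.R]) =
        (Y.b :: rep (i + 1) .a) ++ .F :: (rep j' .A ++ [.R]) := by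
      rw [rep_succ']; simp [er]
    rw [e2]
    exact GG_head rfl ⟨i + 1, j', by rwa [add_assoc], rfl, rfl⟩
  · -- F R
    obtain ⟨rfl, rfl⟩ := Prod.mk.inj h
    have e1 : U ++ er [Y.F, Y.R] ++ V = U ++ Y.F :: (Y.R :: V) := by simp [er]
    rw [e1] at g
    obtain ⟨⟨i, j, hy, rfl, h1⟩, -⟩ := GG_split g rfl
    cases j with
    | succ j => simp [rep, List.replicate_succ] at h1
    | zero =>
      simp [rep] at h1
      subst h1
      refine Or.inr ⟨i, by simpa using hy, ?_⟩
      simp [er]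
  · -- L d
    obtain ⟨rfl, rfl⟩ := Prod.mk.inj h
    exact g
  · -- A d
    obtain ⟨rfl, rfl⟩ := Prod.mk.inj h
    exact g
  · simp only [trRules, List.mem_cons, List.not_mem_nil, or_false] at h
    rcases h with h | h | h | h | h | h
    · obtain ⟨rfl, rfl⟩ := Prod.mk.inj h
      have e1 : U ++ er (Y.Q τ.2.2.2.2.2 :: rep τ.2.2.2.2.1 .A) ++ V =
          U ++ Y.Q τ.2.2.2.2.2 :: (rep τ.2.2.2.2.1 .A ++ V) := by
        rw [← List.singleton_append, er_append, er_rep_A]
        simp [er]
      rw [e1] at g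
      obtain ⟨⟨y, hy, rfl, h1⟩, -⟩ := GG_split g rfl
      obtain ⟨j, rfl, rfl⟩ := rep_split h1
      rw [er_append, er_append, er_rep_A, er_rep_d]
      have e2 : [Y.L] ++ (rep τ.2.2.1 .A ++ er [Y.K τ] ++ []) ++ (rep j .A ++ [.R]) =
          (Y.L :: rep τ.2.2.1 .A) ++ Y.K τ :: (rep j .A ++ [.R]) := by simp [er]
      rw [e2]
      exact GG_head rfl ⟨τ.2.2.1, j, 0, hτ, by simp, by simpa using hy, rfl, rfl⟩
    · obtain ⟨rfl, rfl⟩ := Prod.mk.inj h
      have e1 : U ++ er (Y.K τ :: rep τ.2.2.2.1 .A) ++ V =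
          U ++ Y.K τ :: (rep τ.2.2.2.1 .A ++ V) := by
        rw [← List.singleton_append, er_append, er_rep_A]
        simp [er]
      rw [e1] at g
      obtain ⟨⟨i, j, t, -, hi, hy, rfl, h1⟩, -⟩ := GG_split g rfl
      obtain ⟨j, rfl, rfl⟩ := rep_split h1
      rw [er_append, er_append, er_rep_A, er_rep_d]
      have e2 : (Y.L :: rep i .A) ++ (rep τ.2.1 .A ++ er [Y.K τ] ++ []) ++ (rep j .A ++ [.R]) =
          (Y.L :: rep (i + τ.2.1) .A) ++ Y.K τ :: (rep j .A ++ [.R]) := by
        rw [rep_add]; simp [er]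
      rw [e2]
      refine GG_head rfl ⟨i + τ.2.1, j, t + 1, hτ, by rw [hi]; ring, ?_, rfl, rfl⟩
      convert hy using 1
      ring
    · obtain ⟨rfl, rfl⟩ := Prod.mk.inj h
      have e1 : U ++ er [Y.K τ, Y.R] ++ V = U ++ Y.K τ :: (Y.R :: V) := by simp [er]
      rw [e1] at g
      obtain ⟨⟨i, j, t, -, hi, hy, rfl, h1⟩, -⟩ := GG_split g rfl
      cases j with
      | succ j => simp [rep, List.replicate_succ] at h1
      | zero =>
        simp [rep] at h1
        subst h1
        have e2 : (Y.L :: rep i .A) ++ er [Y.B τ.1, Y.R] ++ [] =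
            (Y.L :: rep i .A) ++ Y.B τ.1 :: (rep 0 .A ++ [.R]) := by simp [er, rep]
        rw [e2]
        refine GG_head rfl ⟨i, 0, ?_, rfl, rfl⟩
        rw [hi, add_zero]
        exact .step τ.1 τ.2.1 τ.2.2.1 τ.2.2.2.1 τ.2.2.2.2.1 τ.2.2.2.2.2 hτ t (by simpa using hy)
    · obtain ⟨rfl, rfl⟩ := Prod.mk.inj h
      have e1 : U ++ er [Y.A, Y.B τ.1] ++ V = (U ++ [Y.A]) ++ Y.B τ.1 :: V := by simp [er]
      rw [e1] at g
      obtain ⟨⟨i, j, hy, h1, rfl⟩, -⟩ := GG_split g rfl
      cases i with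
      | zero =>
        cases U with
        | nil => simp [rep] at h1
        | cons c U => simp [rep] at h1
      | succ i =>
        rw [rep_succ', ← List.cons_append] at h1
        obtain rfl := (List.append_inj' h1 rfl).1
        have e2 : (Y.L :: rep i .A) ++ er [Y.B τ.1, .A] ++ (rep j .A ++ [.R]) =
            (Y.L :: rep i .A) ++ .B τ.1 :: (rep (j + 1) .A ++ [.R]) := by
          simp [er, rep, List.replicate_succ]
        rw [e2]
        refine GG_head rfl ⟨i, j + 1, ?_, rfl, rfl⟩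
        convert hy using 1
        ring
    · obtain ⟨rfl, rfl⟩ := Prod.mk.inj h
      have e1 : U ++ er [Y.L, Y.B τ.1] ++ V = (U ++ [Y.L]) ++ Y.B τ.1 :: V := by simp [er]
      rw [e1] at g
      obtain ⟨⟨i, j, hy, h1, rfl⟩, -⟩ := GG_split g rfl
      cases i with
      | zero =>
        obtain rfl : U = [] := by
          cases U with
          | nil => rfl
          | cons c U => simp [rep] at h1
        have e2 : ([] : List Y) ++ er [Y.L, Y.Q (some τ.1)] ++ (rep j .A ++ [.R]) =
            [Y.L] ++ .Q (some τ.1) :: (rep j .A ++ [.R]) := by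
          simp [er]
        rw [e2]
        exact GG_head rfl ⟨j, by simpa using hy, rfl, rfl⟩
      | succ i =>
        rw [rep_succ', ← List.cons_append] at h1
        have := (List.append_inj' h1 rfl).2
        simp at this
    · obtain ⟨rfl, rfl⟩ := Prod.mk.inj h
      have e : er [Y.K τ, .d] = er [Y.d, .K τ] := by simp [er]
      rwa [← e]

theorem sound {T : List Tr} {p0 : ℕ} {x : List Y} (h : ReflTransGen (Step (P T p0)) [.S] x) :
    GG T p0 (er x) := by
  induction h with
  | refl =>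
    have : er [Y.S] = [] ++ Y.S :: [] := by simp [er]
    rw [this]
    exact GG_head rfl ⟨rfl, rfl⟩
  | tail _ h ih => exact sound_step ih h

theorem sound_term {T : List Tr} {p0 : ℕ} {x : List Y} (h : ReflTransGen (Step (P T p0)) [.S] x)
    (hx : ∀ y ∈ x, nt y = false) : ∃ i, HaltsT T (some p0) i ∧ er x = .b :: rep i .a := by
  rcases sound h with ⟨U, c, V, h1, -, -, e, -⟩ | h
  · exfalso
    have h2 : c ∈ er x := by rw [e]; simp
    have h3 : c ∈ x := (List.mem_filter.1 h2).1
    have := hx c h3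
    cases c <;> simp [hd, nt] at h1 this
  · exact h

/-! ### Completeness -/

theorem Step.ctx {α : Type} {P : List (List α × List α)} {x y : List α} (h : Step P x y)
    (u v : List α) : Step P (u ++ x ++ v) (u ++ y ++ v) := by
  obtain ⟨u', v', l, r, hP, rfl, rfl⟩ := h
  exact ⟨u ++ u', v' ++ v, l, r, hP, by simp, by simp⟩

theorem Der.ctx {α : Type} {P : List (List α × List α)} {x y : List α}
    (h : ReflTransGen (Step P) x y) (u v : List α) :
    ReflTransGen (Step P) (u ++ x ++ v) (u ++ y ++ v) := by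
  induction h with
  | refl => exact .refl
  | tail _ h ih => exact ih.tail (h.ctx u v)

theorem Der.rule {α : Type} {P : List (List α × List α)} {l r : List α} (h : (l, r) ∈ P)
    (u v : List α) : ReflTransGen (Step P) (u ++ l ++ v) (u ++ r ++ v) :=
  .single ⟨u, v, l, r, h, rfl, rfl⟩

/-- symbols which let `d` pass -/
def Cm (T : List Tr) (y : Y) : Prop := y = .L ∨ y = .A ∨ ∃ τ ∈ T, y = .K τ

theorem Cm.rule {T : List Tr} {p0 : ℕ} {y : Y} (h : Cm T y) : ([y, Y.d], [Y.d, y]) ∈ P T p0 := by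
  rcases h with rfl | rfl | ⟨τ, hτ, rfl⟩
  · simp [P]
  · simp [P]
  · simp only [P, List.mem_append, List.mem_flatMap]
    exact Or.inr ⟨τ, hτ, by simp [trRules]⟩

theorem move1 {T : List Tr} {p0 : ℕ} (W : List Y) (hW : ∀ y ∈ W, Cm T y) :
    ReflTransGen (Step (P T p0)) (W ++ [Y.d]) (Y.d :: W) := by
  induction W with
  | nil => exact .refl
  | cons c W ih =>
    have h1 := Der.ctx (ih fun y hy => hW y (by simp [hy])) [c] []
    have h2 := Der.rule (Cm.rule (p0 := p0) (hW c (by simp))) [] W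
    simp only [List.append_nil, List.nil_append] at h1 h2
    exact h1.trans (by simpa using h2)

theorem move {T : List Tr} {p0 : ℕ} (n : ℕ) (W : List Y) (hW : ∀ y ∈ W, Cm T y) :
    ReflTransGen (Step (P T p0)) (W ++ rep n .d) (rep n .d ++ W) := by
  induction n with
  | zero => simp [rep]; exact .refl
  | succ n ih =>
    have h1 := Der.ctx ih [] [Y.d]
    have h2 := Der.ctx (move1 (p0 := p0) W hW) (rep n .d) []
    simp only [List.append_nil, List.nil_append] at h1 h2
    rw [rep_succ']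
    refine ReflTransGen.trans (b := rep n .d ++ W ++ [Y.d]) (by simpa using h1) ?_
    simpa using h2

theorem Cm_A {T : List Tr} {n : ℕ} {y : Y} (h : y ∈ rep n .A) : Cm T y := by
  simp [rep] at h
  exact Or.inr (Or.inl h.2)

theorem sweep {T : List Tr} {p0 : ℕ} {τ : Tr} (hτ : τ ∈ T) (t i j : ℕ) :
    ∃ m, ReflTransGen (Step (P T p0))
      (Y.L :: rep i .A ++ Y.K τ :: (rep (τ.2.2.2.1 * t) .A ++ rep j .A ++ [.R]))
      (rep m .d ++ (Y.L :: rep (i + τ.2.1 * t) .A ++ Y.K τ :: (rep j .A ++ [.R]))) := by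
  induction t generalizing i with
  | zero => exact ⟨0, by simp [rep]; exact .refl⟩
  | succ t ih =>
    have h1 : (Y.K τ :: rep τ.2.2.2.1 .A, rep τ.2.1 .A ++ [Y.K τ] ++ rep (τ.2.2.2.1 - τ.2.1) .d) ∈
        P T p0 := by
      simp only [P, List.mem_append, List.mem_flatMap]
      exact Or.inr ⟨τ, hτ, by simp [trRules]⟩
    have h2 := Der.rule h1 (Y.L :: rep i .A) (rep (τ.2.2.2.1 * t) .A ++ rep j .A ++ [.R])
    have h3 := move (T := T) (p0 := p0) (τ.2.2.2.1 - τ.2.1) (Y.L :: rep i .A ++ (rep τ.2.1 .A ++ [Y.K τ]))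
      (by
        intro y hy
        simp only [List.mem_append, List.mem_cons, List.not_mem_nil, or_false] at hy
        rcases hy with (rfl | hy) | hy | rfl
        · exact Or.inl rfl
        · exact Cm_A hy
        · exact Cm_A hy
        · exact Or.inr (Or.inr ⟨_, hτ, rfl⟩))
    obtain ⟨m, hm⟩ := ih (i + τ.2.1)
    refine ⟨τ.2.2.2.1 - τ.2.1 + m, ?_⟩
    have h4 := Der.ctx h3 [] (rep (τ.2.2.2.1 * t) .A ++ rep j .A ++ [.R])
    have h5 := Der.ctx hm (rep (τ.2.2.2.1 - τ.2.1) .d) []
    rw [mul_add, mul_one, add_comm (τ.2.2.2.1 * t), rep_add]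
    refine ReflTransGen.trans ?_ (ReflTransGen.trans h4 ?_)
    · refine (cast ?_ h2)
      congr 1 <;> simp
    · refine (cast ?_ h5)
      congr 1
      · simp [rep_add]
      · have e : i + τ.2.1 + τ.2.1 * t = i + τ.2.1 * (t + 1) := by ring
        rw [e, rep_add (τ.2.2.2.1 - τ.2.1) m]
        simp

theorem back {T : List Tr} {p0 : ℕ} {τ : Tr} (hτ : τ ∈ T) (i : ℕ) (v : List Y) :
    ReflTransGen (Step (P T p0)) (rep i .A ++ Y.B τ.1 :: v) (Y.B τ.1 :: (rep i .A ++ v)) := by
  induction i generalizing v with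
  | zero => simp [rep]; exact .refl
  | succ i ih =>
    have h1 : ([Y.A, .B τ.1], [.B τ.1, .A]) ∈ P T p0 := by
      simp only [P, List.mem_append, List.mem_flatMap]
      exact Or.inr ⟨τ, hτ, by simp [trRules]⟩
    have h2 := Der.rule h1 (rep i .A) v
    have h3 := ih (Y.A :: v)
    rw [rep_succ']
    refine ReflTransGen.trans (b := rep i .A ++ Y.B τ.1 :: Y.A :: v) ?_ ?_
    · simpa using h2
    · simpa using h3

theorem comp {T : List Tr} {p0 : ℕ} {o : Option ℕ} {x : ℕ} (h : HaltsT T o x) :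
    ∃ m, ReflTransGen (Step (P T p0)) [.S]
      (rep m .d ++ (Y.L :: Y.Q o :: (rep x .A ++ [.R]))) := by
  induction h with
  | stop x =>
    refine ⟨0, ?_⟩
    induction x with
    | zero =>
      have h1 : ([Y.S], [.L, .Q none, .R]) ∈ P T p0 := by simp [P]
      simpa [rep] using Der.rule h1 [] []
    | succ x ih =>
      have h1 : ([Y.Q none], [.Q none, .A]) ∈ P T p0 := by simp [P]
      have h2 := Der.rule h1 [.L] (rep x .A ++ [.R])
      refine ih.trans ?_
      simpa [rep, List.replicate_succ] using h2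
  | step p s s0 r r0 o hτ t _ ih =>
    obtain ⟨m, ih⟩ := ih
    set τ : Tr := (p, s, s0, r, r0, o) with hτe
    have h1 : (Y.Q o :: rep r0 .A, rep s0 .A ++ [Y.K τ] ++ rep (r0 - s0) .d) ∈ P T p0 := by
      simp only [P, List.mem_append, List.mem_flatMap]
      exact Or.inr ⟨τ, hτ, by simp [trRules, τ]⟩
    have h2 := Der.rule h1 [Y.L] (rep (r * t) .A ++ [.R])
    have h3 := move (T := T) (p0 := p0) (r0 - s0) ([Y.L] ++ (rep s0 .A ++ [Y.K τ]))
      (by
        intro y hy
        simp only [List.mem_append, List.mem_cons, List.not_mem_nil, or_false] at hy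
        rcases hy with rfl | hy | rfl
        · exact Or.inl rfl
        · exact Cm_A hy
        · exact Or.inr (Or.inr ⟨_, hτ, rfl⟩))
    have h4 := Der.ctx h3 [] (rep (r * t) .A ++ [.R])
    obtain ⟨m', h5⟩ := sweep (p0 := p0) hτ t s0 0
    have h6 : ([Y.K τ, .R], [.B p, .R]) ∈ P T p0 := by
      simp only [P, List.mem_append, List.mem_flatMap]
      exact Or.inr ⟨τ, hτ, by simp [trRules, τ]⟩
    have h7 := Der.rule h6 (Y.L :: rep (s0 + s * t) .A) []
    have h8 := Der.ctx (back (p0 := p0) hτ (s0 + s * t) [.R]) [Y.L] []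
    have h9 : ([Y.L, .B p], [.L, .Q (some p)]) ∈ P T p0 := by
      simp only [P, List.mem_append, List.mem_flatMap]
      exact Or.inr ⟨τ, hτ, by simp [trRules, τ]⟩
    have h10 := Der.rule h9 [] (rep (s0 + s * t) .A ++ [.R])
    refine ⟨m + (r0 - s0) + m', ?_⟩
    refine ih.trans ?_
    rw [rep_add (m + (r0 - s0)) m', rep_add m (r0 - s0), List.append_assoc, List.append_assoc]
    have key : ReflTransGen (Step (P T p0)) (Y.L :: Y.Q o :: (rep (r * t + r0) .A ++ [.R]))
        (rep (r0 - s0) .d ++ (rep m' .d ++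
          (Y.L :: Y.Q (some p) :: (rep (s * t + s0) .A ++ [.R])))) := by
      have k1 : ReflTransGen (Step (P T p0)) (Y.L :: Y.Q o :: (rep (r * t + r0) .A ++ [.R]))
          (rep (r0 - s0) .d ++ (Y.L :: rep s0 .A ++ Y.K τ :: (rep (r * t) .A ++ [.R]))) := by
        refine ReflTransGen.trans ?_ (ReflTransGen.trans h4 ?_)
        · rw [add_comm (r * t), rep_add]
          refine (cast ?_ h2)
          congr 1 <;> simp
        · simp only [List.nil_append, List.append_assoc, List.cons_append]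
          exact .refl
      have k2 : ReflTransGen (Step (P T p0))
          (Y.L :: rep s0 .A ++ Y.K τ :: (rep (r * t) .A ++ [.R]))
          (rep m' .d ++ (Y.L :: rep (s0 + s * t) .A ++ Y.K τ :: [.R])) := by
        simpa [rep, τ] using h5
      have k3 : ReflTransGen (Step (P T p0)) (Y.L :: rep (s0 + s * t) .A ++ Y.K τ :: [.R])
          (Y.L :: Y.Q (some p) :: (rep (s * t + s0) .A ++ [.R])) := by
        refine ReflTransGen.trans ?_ (ReflTransGen.trans h8 ?_)
        · simpa [τ] using h7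
        · rw [add_comm (s * t)]
          simpa [τ] using h10
      have k2' := Der.ctx k2 (rep (r0 - s0) .d) []
      have k3' := Der.ctx k3 (rep (r0 - s0) .d ++ rep m' .d) []
      simp only [List.append_nil, List.append_assoc] at k2' k3'
      exact k1.trans (k2'.trans k3')
    have key' := Der.ctx key (rep m .d) []
    simpa only [List.append_nil] using key'

theorem comp_term {T : List Tr} {p0 : ℕ} {x : ℕ} (h : HaltsT T (some p0) x) :
    ∃ y, ReflTransGen (Step (P T p0)) [.S] y ∧ (∀ c ∈ y, nt c = false) ∧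
      er y = .b :: rep x .a := by
  obtain ⟨m, hm⟩ := comp (p0 := p0) h
  have h1 : ([Y.L, .Q (some p0)], [.b, .F]) ∈ P T p0 := by simp [P]
  have h2 := Der.rule h1 (rep m .d) (rep x .A ++ [.R])
  have h3 : ∀ i j, ReflTransGen (Step (P T p0)) (rep i .a ++ Y.F :: (rep j .A ++ [.R]))
      (rep (i + j) .a ++ [.d, .d]) := by
    intro i j
    induction j generalizing i with
    | zero =>
      have : ([Y.F, .R], [.d, .d]) ∈ P T p0 := by simp [P]
      simpa [rep] using Der.rule this (rep i .a) []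
    | succ j ih =>
      have : ([Y.F, .A], [.a, .F]) ∈ P T p0 := by simp [P]
      have k := Der.rule this (rep i .a) (rep j .A ++ [.R])
      have k2 := ih (i + 1)
      rw [rep_succ'] at k2
      have e : i + 1 + j = i + (j + 1) := by ring
      rw [e] at k2
      refine ReflTransGen.trans (b := rep i .a ++ [.a] ++ Y.F :: (rep j .A ++ [.R])) ?_ k2
      simpa [rep, List.replicate_succ] using k
  have h4 := Der.ctx (h3 0 x) (rep m .d ++ [.b]) []
  refine ⟨rep m .d ++ [.b] ++ rep x .a ++ [.d, .d], ?_, ?_, ?_⟩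
  · refine hm.trans (ReflTransGen.trans (b := rep m .d ++ [.b] ++ .F :: (rep x .A ++ [.R])) ?_ ?_)
    · simpa using h2
    · simpa [rep] using h4
  · intro c hc
    simp [rep] at hc
    rcases hc with hc | hc | hc | hc
    · rw [hc.2]; rfl
    · rw [hc]; rfl
    · rw [hc.2]; rfl
    · rw [hc]; rfl
  · rw [er_append, er_append, er_append, er_rep_d]
    have : er (rep x .a) = rep x .a := by simp [er, rep, List.filter_replicate]
    rw [this]
    simp [er]

end Q222.SC
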